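import Pool.Agent.Run7.h827.HM.Ports

set_option autoImplicit false

/-! # The motivic monodromy conjecture for forms over products of Hankel determinantal ideals

Let `x_0, …, x_{N - 1}` be the coordinates of the affine space. The Hankel matrices of rank at most
`d` form a closed subset `Σ_d`, `2 d < N`, of dimension `2 d`: the affine cone over the variety of
`d`-secant `(d - 1)`-planes of the rational normal curve of degree `N - 1`. Its ideal `I_{d + 1}` is
generated by the maximal minors of the `(d + 1) × (N - d)` Hankel matrix `(x_{i + j})`, and also by
the `(d + 1)`-minors of the other Hankel matrices in these variables which have at least `d + 1`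
rows and columns (Gruson and Peskine). Let `p s`, `s ∈ S`, be numbers with `2 p s < N`.

For `t ∈ T` let `e t s`, `s ∈ S`, be exponents, and let the `M_{t,J}` (`hankelProd N p (e t) J`) be
the products of maximal minors of Hankel matrices, `e t s` of them of the `p s × (N + 1 - p s)`
Hankel matrix, for each `s`. They generate the ideal `∏ s, I_{p s} ^ e t s`, a product of powers of
Hankel determinantal ideals, in general of different sizes. Let

  `F_t = ∑_J y_{t,J} M_{t,J}(x)`,

where the `y_{t,J}` are further variables, separate for each `t` (`blockForm`), so `F_t` is the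
general form over this product. Let `f = ∏ t, F_t ^ a t` (`powProd`).

The resolution. Let `P` be the maximum of the `p s`, and let `Y` be obtained from the affine space
by blowing up `Σ_0 = {0}` and the strict transforms of `Σ_1, …, Σ_{P - 1}`, in this order. It is
smooth, and the exceptional divisors `E_0, …, E_{P - 1}` cross normally (Bertram; Thaddeus;
Vermeire): near a point of rank `d` the affine space with the `Σ_{d + j}` and the ideals `I_{d + j}`
is the product of a smooth germ of dimension `2 d` and of the affine space of dimension `N - 2 d`
with its `Σ_j` and `I_j`. So the multiplicity of the Jacobian determinant along `E_d` is `ν_d - 1`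
with `ν_d = N - 2 d`, and `I_p` becomes the ideal of the divisor `∑_{d < p} (p - d) E_d`. Locally
`F_t` is one of the `M_{t,J}` times `y_{t,J} + ∑_{i ≠ J} g_i y_{t,i}`. Hence `Y` times the space of
the `y` is an embedded resolution of `f`, with the components `E_d`, of multiplicity `∑ t, a t ∑ s,
e t s * max (p s - d, 0)`, and, for `a t > 0`, the strict transform of `F_t = 0`, with multiplicity
`a t` and `ν = 1` (`mulM`, `nuH`; in these definitions all `d < (N + 1) / 2` are listed, the `d ≥ P`
have the multiplicity `0` and do not matter). So the motivic zeta function `Z_f^mot` of the problem,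
computed on this resolution, is of the form `dlZ = ∑_J c_J ∏_{i ∈ J} u ^ (-ν_i) T ^ (N_i) / (1 - u ^
(-ν_i) T ^ (N_i))`, with `u = 𝕃`, `R = 𝓜 = K₀(Var)[𝕃⁻¹]`, `c_J = (𝕃 - 1) ^ (|J| - 1) [Ẽ_J°]` for `J
≠ ∅` and `c_∅ = [{f = 1}]` (Denef and Loeser).

Since the roots of the Bernstein-Sato polynomial `b_f` give monodromy eigenvalues `exp(2 π i q₁ /
q₂)` of `f` at points of `f⁻¹(0)` (Malgrange, Kashiwara), this is the statement of Q1, with `(a, b)
= (q₁, q₂)`, and its strong form.

The proof. A functional equation of the product of powers of the `F_t` gives one of the product of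
powers of the ideals `∏ s, I_{p s} ^ e t s`, with the same `b` (`locEq_of_powProd`). A residue
computation at a point of `E_d` at which the divisor is a Rees divisor gives the roots
(`rees_prod`). The chart is the one of `Pool.Agent.R779.HK` (`xi`): let `H` be the leading `d × d`
Hankel matrix in `2 d` free coordinates, with an antidiagonal matrix at the base point, `R_k` the
sequence which satisfies the recurrence of length `d` given by `H` and the first `2 d` coordinates,
and `x_k = R_k + z w_k`, where `w_{2 d + c} = 1`, `c = P - d`, the other `w_k` with `k ≥ 2 d` are
coordinates which vanish at the base point, and `w_k = 0` for `k < 2 d`. The quotients of two minors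
which differ in one column determine, to first order, all the coordinates `w_k`, `k ≥ 2 d`, as `2 p
s < N`. A quotient of two minors is also a quotient of two products of minors which differ in one
factor (`mix_quot`); so `E_d` is a Rees divisor of the product of powers of the ideals of the `F_t`
if its multiplicity there is positive (`mixChart_isRees`). The roots `-(1 + l) / a t` come from the
strict transforms (`strict_root`). -/

namespace Pool.Agent.Results.MP_432c1b_ag.HankelProducts

open Pool.Agent.H628R4.TP Pool.Agent.TH192.DT Pool.Agent.R779.HK Pool.Agent.R852.BM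
  Pool.Agent.Run7.h827.HM

/-- **The motivic monodromy conjecture for `f = ∏ t, F_t ^ a t`**, `F_t` the general form over the
product `∏ s, I_{p s} ^ e t s` of powers of ideals of minors of Hankel matrices in `N` variables, `2
p s < N`. There is a finite set `𝒮` of pairs `q₁ < 0 < q₂` such that `q₁ / q₂` is a root of every
`b` with `IsBFunction f b`, and such that all the series `Z` of the form of the formula of Denef and
Loeser on the resolution described above, with coefficients `χ J` in a commutative ring `R` with a
unit `u` (see above), are in the ring generated over `R` by `T` and the `1 / (1 - u ^ q₁ T ^ q₂)`,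
`q ∈ 𝒮`. `IsBFunction f b` says that `b(s) f ^ s = P(s) f ^ (s + 1)`, `P(s)` a differential operator
with polynomial coefficients; for example the Bernstein-Sato polynomial `b_f`. -/
theorem result {S T : Type} [Fintype S] [DecidableEq S] [Fintype T] [DecidableEq T] (N : ℕ)
    (p : S → ℕ) (e : T → S → ℕ) (a : T → ℕ) (hp : ∀ s, 2 * p s < N) :
    ∃ 𝒮 : Finset (ℤ × ℤ), (∀ (R : Type) [CommRing R] (u : Rˣ)
        (χ : Finset {x // 0 < mulM N p e a x} → R),
        dlZ u (nuH N T) (mulM N p e a) χ ∈ ratU u (𝒮 : Set (ℤ × ℤ))) ∧
      ∀ q ∈ 𝒮, q.1 < 0 ∧ 0 < q.2 ∧ ∀ b : Polynomial ℂ,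
        IsBFunction (powProd a fun t => hankelProd N p (e t)) b →
          b.eval ((q.1 : ℂ) / q.2) = 0 := by
  obtain ⟨𝒮, h1, h2⟩ := mix_set N p e a hp
  exact ⟨𝒮, h1, fun q hq => ⟨(h2 q hq).1, (h2 q hq).2.1, fun b hb =>
    (h2 q hq).2.2 b (Or.inl hb)⟩⟩

end Pool.Agent.Results.MP_432c1b_ag.HankelProducts
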