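import Pool.Agent.Run7.h827.HM.Ports

set_option autoImplicit false

/-! # The motivic monodromy conjecture for products of Hankel determinantal ideals

Let `x_0, …, x_{N - 1}` be the coordinates of the affine space. The Hankel matrices of rank at most
`d` form a closed subset `Σ_d`, `2 d < N`, of dimension `2 d`: the affine cone over the variety of
`d`-secant `(d - 1)`-planes of the rational normal curve of degree `N - 1`. Its ideal `I_{d + 1}` is
generated by the maximal minors of the `(d + 1) × (N - d)` Hankel matrix `(x_{i + j})`, and also by
the `(d + 1)`-minors of the other Hankel matrices in these variables which have at least `d + 1`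
rows and columns (Gruson and Peskine). Let `p s`, `s ∈ S`, be numbers with `2 p s < N`. Let `e s`,
`s ∈ S`, be exponents, and let `I = ∏ s, I_{p s} ^ e s`. It is generated by the products of maximal
minors of Hankel matrices, `e s` of them of the `p s × (N + 1 - p s)` Hankel matrix, for each `s`
(`hankelProd N p e`).

The resolution. Let `P` be the maximum of the `p s`, and let `Y` be obtained from the affine space
by blowing up `Σ_0 = {0}` and the strict transforms of `Σ_1, …, Σ_{P - 1}`, in this order. It is
smooth, and the exceptional divisors `E_0, …, E_{P - 1}` cross normally (Bertram; Thaddeus;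
Vermeire): near a point of rank `d` the affine space with the `Σ_{d + j}` and the ideals `I_{d + j}`
is the product of a smooth germ of dimension `2 d` and of the affine space of dimension `N - 2 d`
with its `Σ_j` and `I_j`. So the multiplicity of the Jacobian determinant along `E_d` is `ν_d - 1`
with `ν_d = N - 2 d`, and `I_p` becomes the ideal of the divisor `∑_{d < p} (p - d) E_d`. So `Y` is
a principalization of `I`, with the components `E_d`, of multiplicity `∑ s, e s * max (p s - d, 0)`
(`mulI`, `nuI`; in these definitions all `d < (N + 1) / 2` are listed, the `d ≥ P` have the
multiplicity `0` and do not matter). By the formula of Denef and Loeser the motivic zeta function of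
`I` (global, or local at the origin) is of the form `dlZ`.

The proof. A residue computation at a point of `E_d` at which the divisor is a Rees divisor gives
the roots (`rees_prod`). The chart is the one of `Pool.Agent.R779.HK` (`xi`): let `H` be the leading
`d × d` Hankel matrix in `2 d` free coordinates, with an antidiagonal matrix at the base point,
`R_k` the sequence which satisfies the recurrence of length `d` given by `H` and the first `2 d`
coordinates, and `x_k = R_k + z w_k`, where `w_{2 d + c} = 1`, `c = P - d`, the other `w_k` with `k
≥ 2 d` are coordinates which vanish at the base point, and `w_k = 0` for `k < 2 d`. The quotients of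
two minors which differ in one column determine, to first order, all the coordinates `w_k`, `k ≥ 2
d`, as `2 p s < N`. So `E_d` is a Rees divisor of `I` if its multiplicity there is positive
(`ideal_roots`). For the local functional equations the base point has to lie over a point of the
affine space at which a given polynomial `H` with `H(0) ≠ 0` does not vanish: the antidiagonal
matrix is multiplied by a general number `lam` (`exists_lam`). -/

namespace Pool.Agent.Results.MP_4e5fcd_ag.HankelProducts

open Pool.Agent.W574.SM Pool.Agent.W574.LM Pool.Agent.TH192.DT Pool.Agent.R779.HK
  Pool.Agent.Run7.h827.HM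

/-- **The motivic monodromy conjecture for products of powers of Hankel determinantal ideals** `I = ∏ s,
I_{p s} ^ e s`, `2 p s < N`. Let `ν_d = N - 2 d` and `N_d = ∑ s, e s * max (p s - d, 0)`. Every sum
`dlZ` of the form of the formula of Denef and Loeser, with arbitrary coefficients in a ring (the
classes of the strata), lies in the ring generated by `T` and the `1 / (1 - u ^ (-ν_d) T ^ (N_d))`,
`N_d > 0`, and all the numbers `-ν_d / N_d` are roots of every `b` for which `H b` satisfies a
functional equation of the generators of `I` for some polynomial `H` with `H(0) ≠ 0`, in particular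
of the local Bernstein-Sato polynomial of `I` at the origin, and (`H = 1`) of the global one. -/
theorem result {S : Type} [Fintype S] [DecidableEq S] (N : ℕ) (p e : S → ℕ)
    (hp : ∀ s, 2 * p s < N) :
    (∀ (R : Type) [CommRing R] (u : Rˣ) (χ : Finset {d // 0 < mulI N p e d} → R),
      dlZ u (nuI N) (mulI N p e) χ ∈ ratU u (pairs (nuI N) (mulI N p e) : Set (ℤ × ℤ))) ∧
    ∀ q ∈ pairs (nuI N) (mulI N p e), q.1 < 0 ∧ 0 < q.2 ∧
      ∀ (b : Polynomial ℂ) (H : MvPolynomial (Fin N) ℂ), MvPolynomial.constantCoeff H ≠ 0 →
        IsLocEq H (hankelProd N p e) b → b.eval ((q.1 : ℂ) / q.2) = 0 := by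
  refine ⟨fun R _ u χ => dlZ_mem u _ _ χ, fun q hq => ?_⟩
  have h2 := pairs_sign _ _ (nuI_pos N) q hq
  exact ⟨h2.1, h2.2, fun b H hH hb => pairs_roots _ _ (nuI_pos N) b
    (one_ideal_roots N p e hp b H hH hb) q hq⟩

end Pool.Agent.Results.MP_4e5fcd_ag.HankelProducts
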