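import Pool.Agent.Run7.h827.HM.Mixed

set_option autoImplicit false

/-! # Poles of the local topological zeta function and roots of the local Bernstein-Sato polynomial:
# forms over products of Hankel determinantal ideals

Let `x_0, …, x_{N - 1}` be the coordinates of the affine space. The Hankel matrices of rank at most
`d` form a closed subset `Σ_d`, `2 d < N`, of dimension `2 d`: the affine cone over the variety of
`d`-secant `(d - 1)`-planes of the rational normal curve of degree `N - 1`. Its ideal `I_{d + 1}` is
generated by the maximal minors of the `(d + 1) × (N - d)` Hankel matrix `(x_{i + j})`, and also by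
the `(d + 1)`-minors of the other Hankel matrices in these variables which have at least `d + 1`
rows and columns (Gruson and Peskine). Let `p s`, `s ∈ S`, be numbers with `2 p s < N`.

For `t ∈ T` let `e t s`, `s ∈ S`, be exponents, and let the `M_{t,J}` (`hankelProd N p (e t) J`) be
the products of maximal minors of Hankel matrices, `e t s` of them of the `p s × (N + 1 - p s)`
Hankel matrix, for each `s`. They generate the ideal `∏ s, I_{p s} ^ e t s`, a product of powers of
Hankel determinantal ideals, in general of different sizes. Let

  `F_t = ∑_J y_{t,J} M_{t,J}(x)`,

where the `y_{t,J}` are further variables, separate for each `t` (`blockForm`), so `F_t` is the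
general form over this product. Let `f = ∏ t, F_t ^ a t` (`powProd`), a germ at the origin. The file
`HankelDeterminantal` of this page treats a single ideal `I_{p t}` for each `t`.

The resolution. Let `P` be the maximum of the `p s`, and let `Y` be obtained from the affine space
by blowing up `Σ_0 = {0}` and the strict transforms of `Σ_1, …, Σ_{P - 1}`, in this order. It is
smooth, and the exceptional divisors `E_0, …, E_{P - 1}` cross normally (Bertram; Thaddeus;
Vermeire): near a point of rank `d` the affine space with the `Σ_{d + j}` and the ideals `I_{d + j}`
is the product of a smooth germ of dimension `2 d` and of the affine space of dimension `N - 2 d`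
with its `Σ_j` and `I_j`. So the multiplicity of the Jacobian determinant along `E_d` is `ν_d - 1`
with `ν_d = N - 2 d`, and `I_p` becomes the ideal of the divisor `∑_{d < p} (p - d) E_d`. Locally
`F_t` is one of the `M_{t,J}` times `y_{t,J} + ∑_{i ≠ J} g_i y_{t,i}`. Hence `Y` times the space of
the `y` is an embedded resolution of `f`, with the components `E_d`, of multiplicity `∑ t, a t ∑ s,
e t s * max (p s - d, 0)`, and, for `a t > 0`, the strict transform of `F_t = 0`, with multiplicity
`a t` and `ν = 1` (`mulM`, `nuH`; in these definitions all `d < (N + 1) / 2` are listed, the `d ≥ P`
have the multiplicity `0` and do not matter).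

The proof. A functional equation of the product of powers of the `F_t` gives one of the product of
powers of the ideals `∏ s, I_{p s} ^ e t s`, with the same `b` (`locEq_of_powProd`). A residue
computation at a point of `E_d` at which the divisor is a Rees divisor gives the roots
(`rees_prod`). The chart is the one of `Pool.Agent.R779.HK` (`xi`): let `H` be the leading `d × d`
Hankel matrix in `2 d` free coordinates, with an antidiagonal matrix at the base point, `R_k` the
sequence which satisfies the recurrence of length `d` given by `H` and the first `2 d` coordinates,
and `x_k = R_k + z w_k`, where `w_{2 d + c} = 1`, `c = P - d`, the other `w_k` with `k ≥ 2 d` are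
coordinates which vanish at the base point, and `w_k = 0` for `k < 2 d`. The quotients of two minors
which differ in one column determine, to first order, all the coordinates `w_k`, `k ≥ 2 d`, as `2 p
s < N`. A quotient of two minors is also a quotient of two products of minors which differ in one
factor (`mix_quot`); so `E_d` is a Rees divisor of the product of powers of the ideals of the `F_t`
if its multiplicity there is positive (`mixChart_isRees`). The roots `-(1 + l) / a t` come from the
strict transforms (`strict_root`). For the local functional equations the base point has to lie over
a point of the affine space at which a given polynomial `H` with `H(0) ≠ 0` does not vanish: the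
antidiagonal matrix is multiplied by a general number `lam` (`exists_lam`). -/

namespace Pool.Agent.Results.MP_6163c8_ag.HankelProducts

open Pool.Agent.H628R4.TP Pool.Agent.TH192.DT Pool.Agent.R779.HK Pool.Agent.Run7.h827.HM

/-- **Q1 holds for the germ of `f = ∏ t, F_t ^ a t` at the origin**, `F_t` the general form over the
product `∏ s, I_{p s} ^ e t s` of powers of ideals of minors of Hankel matrices in `N` variables, `2
p s < N`. Let `b` satisfy a functional equation `b(s) f ^ s = P(s) f ^ (s + 1)`, where `P(s)` is a
differential operator with formal (in particular convergent) power series as coefficients, for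
instance, let `b` be the local Bernstein-Sato polynomial of `f`. (1) The numbers `-(N - 2 d + l) /
N_d`, `0 ≤ l < N_d`, for all `d`, where `N_d = ∑ t, a t ∑ s, e t s * max (p s - d, 0)`, and `-(1 +
l) / a t`, `0 ≤ l < a t`, are roots of `b`. (2) Every pole `s₀` of the local topological zeta
function of `f`, computed on the resolution described above (with arbitrary integers `χ` in the
place of the Euler characteristics of the strata over the origin), is a root of `b`. -/
theorem result {S T : Type} [Fintype S] [DecidableEq S] [Fintype T] [DecidableEq T] (N : ℕ)
    (p : S → ℕ) (e : T → S → ℕ) (a : T → ℕ) (hp : ∀ s, 2 * p s < N) (b : Polynomial ℂ)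
    (hb : IsLocalBFunction (powProd a fun t => hankelProd N p (e t)) b) :
    (∀ (x : Fin ((N + 1) / 2) ⊕ T) (l : ℕ), l < mulM N p e a x →
      b.eval (-((nuH N T x : ℂ) + l) / mulM N p e a x) = 0) ∧
    ∀ (χ : Finset (Fin ((N + 1) / 2) ⊕ T) → ℤ) (s₀ : ℂ),
      (topZ (nuH N T) (mulM N p e a) χ).denom.eval s₀ = 0 → b.eval s₀ = 0 :=
  ⟨mix_local_roots N p e a hp b hb, fun χ s₀ hs => root_of_pole _ _ χ (nuH_pos N T) b
    (mix_local_roots N p e a hp b hb) s₀ hs⟩

end Pool.Agent.Results.MP_6163c8_ag.HankelProducts
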